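import Pool.Agent.TH220.OrlC

set_option autoImplicit false

namespace Pool.Agent.Results.MP_85199e_an.EverywhereDivergent

open Finset Pool.Agent.TH220.Orl

/-- There is a real trigonometric series with `|a_n| = |b_n| = 1/√n` (so that the coefficients are
in every `ℓ^p` with `p > 2`) which has no finite limit at any real point. -/
theorem result :
    ∃ a b : ℕ → ℝ,
      (∀ n : ℕ, 1 ≤ n → |a n| = 1 / Real.sqrt n ∧ |b n| = 1 / Real.sqrt n) ∧
      (∀ ε : ℝ, 0 < ε →
        Summable (fun n : ℕ => |a (n + 1)| ^ (2 + ε) + |b (n + 1)| ^ (2 + ε))) ∧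
      ∀ x : ℝ, ¬ ∃ L : ℝ,
        Filter.Tendsto
          (fun N : ℕ => ∑ n ∈ Finset.Icc 1 N, (a n * Real.cos (n * x) + b n * Real.sin (n * x)))
          Filter.atTop (nhds L) := by
  obtain ⟨s, hs, hdiv⟩ := exists_signs
  have habs : ∀ i, |s i| = 1 := by
    intro i
    rcases hs i with h | h <;> rw [h] <;> simp
  have ha : ∀ n : ℕ, |s (2 * n) / Real.sqrt n| = 1 / Real.sqrt n := by
    intro n
    rw [abs_div, habs, abs_of_nonneg (Real.sqrt_nonneg _)]
  have hb : ∀ n : ℕ, |s (2 * n + 1) / Real.sqrt n| = 1 / Real.sqrt n := by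
    intro n
    rw [abs_div, habs, abs_of_nonneg (Real.sqrt_nonneg _)]
  refine ⟨fun n => s (2 * n) / Real.sqrt n, fun n => s (2 * n + 1) / Real.sqrt n,
    fun n _ => ⟨ha n, hb n⟩, ?_, ?_⟩
  · intro ε hε
    have h1 : Summable (fun n : ℕ => 2 * (1 / (((n + 1 : ℕ) : ℝ)) ^ ((2 + ε) / 2))) := by
      apply Summable.mul_left
      exact (summable_nat_add_iff 1).2 (Real.summable_one_div_nat_rpow.2 (by linarith))
    refine h1.congr fun n => ?_
    rw [ha, hb]
    have hn : (0 : ℝ) ≤ ((n + 1 : ℕ) : ℝ) := by positivity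
    have e1 : (1 / Real.sqrt ((n + 1 : ℕ) : ℝ)) ^ (2 + ε) =
        1 / (((n + 1 : ℕ) : ℝ)) ^ ((2 + ε) / 2) := by
      rw [Real.div_rpow zero_le_one (Real.sqrt_nonneg _), Real.one_rpow, Real.sqrt_eq_rpow,
        ← Real.rpow_mul hn]
      congr 2
      ring
    rw [e1]
    ring
  · rintro x ⟨L, hL⟩
    set P : ℕ → ℝ := fun N => ∑ n ∈ Finset.Icc 1 N,
      (s (2 * n) / Real.sqrt n * Real.cos (n * x) + s (2 * n + 1) / Real.sqrt n * Real.sin (n * x))
      with hP
    have hblock : ∀ l, P (Nl (l + 1) - 1) - P (Nl l - 1) = ∑ i ∈ I l, s i * v x i := by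
      intro l
      unfold I
      have hlt := Nl_mono (Nat.lt_succ_self l)
      have hpos := Nl_pos l
      rw [sum_pairs _ _ _ hlt.le]
      have h1 : ∀ m, 1 ≤ m → P (m - 1) = ∑ n ∈ Ico 1 m,
          (s (2 * n) / Real.sqrt n * Real.cos (n * x) +
            s (2 * n + 1) / Real.sqrt n * Real.sin (n * x)) := by
        intro m hm
        simp only [hP]
        refine sum_congr ?_ fun _ _ => rfl
        ext i
        simp only [mem_Icc, mem_Ico]
        omega
      rw [h1 _ (Nl_pos _), h1 _ (Nl_pos _), ← Finset.sum_Ico_consecutive _ hpos hlt.le,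
        add_sub_cancel_left]
      refine sum_congr rfl fun n _ => ?_
      rw [v_even, v_odd]
      ring
    have hNl : Filter.Tendsto (fun l => Nl l - 1) Filter.atTop Filter.atTop := by
      refine Filter.tendsto_atTop_mono (f := fun l : ℕ => l - 1) ?_ (Filter.tendsto_sub_atTop_nat 1)
      intro l
      have := Nl_mono.id_le l
      simp only [id] at this
      exact Nat.sub_le_sub_right this 1
    have h2 : Filter.Tendsto (fun l => P (Nl l - 1)) Filter.atTop (nhds L) := hL.comp hNl
    have h3 : Filter.Tendsto (fun l => P (Nl (l + 1) - 1)) Filter.atTop (nhds L) :=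
      (Filter.tendsto_add_atTop_iff_nat (f := fun l => P (Nl l - 1)) 1).2 h2
    have h4 : Filter.Tendsto (fun l => |∑ i ∈ I l, s i * v x i|) Filter.atTop (nhds 0) := by
      have h5 := (h3.sub h2).abs
      rw [sub_self, abs_zero] at h5
      refine h5.congr fun l => ?_
      rw [hblock]
    have h6 := h4.eventually (gt_mem_nhds (show (0 : ℝ) < 1 / 24 by norm_num))
    obtain ⟨k, hk⟩ := Filter.eventually_atTop.1 h6
    obtain ⟨l, hl, h7⟩ := hdiv x k
    exact absurd (hk l hl) (not_lt.2 h7)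

end Pool.Agent.Results.MP_85199e_an.EverywhereDivergent
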